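import Mathlib

/-!
# MP_d408b2_an: `x_{n+1} = max {A, x_n, x_{n-1}} / x_{n-2}`

For every `A > 0`, no positive non-equilibrium solution has a limit.
-/

set_option autoImplicit false

open Filter Topology

namespace Pool.Agent.Results.MP_d408b2_an.NoLimit

/-- `x` is a positive solution of `x_{n+1} = max {A, x_n, x_{n-1}} / x_{n-2}`; the indices are
shifted by two, so that `x 0, x 1, x 2` are the initial values `x_{-2}, x_{-1}, x_0`. -/
def IsPositiveSolution (A : ℝ) (x : ℕ → ℝ) : Prop :=
  (∀ n, 0 < x n) ∧ ∀ n, x (n + 3) = max A (max (x (n + 2)) (x (n + 1))) / x n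

/-! ### Uniqueness backwards -/

lemma eq_of_eventually {A c : ℝ} {x : ℕ → ℝ} (hx : IsPositiveSolution A x) (hc : 0 < c)
    (hcc : max A c = c * c) (N : ℕ) (h : ∀ n, N ≤ n → x n = c) : ∀ n, x n = c := by
  induction N with
  | zero => exact fun n => h n (Nat.zero_le n)
  | succ N ih =>
    apply ih
    intro n hn
    rcases Nat.eq_or_lt_of_le hn with rfl | hn'
    · have h0 := hx.2 N
      rw [h (N + 3) (by omega), h (N + 2) (by omega), h (N + 1) (by omega), max_self, hcc] at h0
      have hp := hx.1 N
      rw [eq_div_iff hp.ne'] at h0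
      exact mul_left_cancel₀ hc.ne' h0
    · exact h n hn'

/-! ### The case `A ≤ 1`: a conserved quantity in the logarithms -/

/-- a quantity preserved by `z_{n+3} = max {c, z_{n+2}, z_{n+1}} - z_n` -/
noncomputable def M (c x y z : ℝ) : ℝ :=
  max x (max c (max z y)) + max (-x) 0 + max (-y) 0 + max (-z) 0

lemma max_sub_eq (w x : ℝ) : max w (w - x) = w + max (-x) 0 := by
  rcases le_total x 0 with h | h
  · rw [max_eq_right (by linarith : w ≤ w - x), max_eq_left (by linarith : (0 : ℝ) ≤ -x)]; ring
  · rw [max_eq_left (by linarith : w - x ≤ w), max_eq_right (by linarith : -x ≤ (0 : ℝ))]; ring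

lemma M_step (c x y z : ℝ) : M c y z (max c (max z y) - x) = M c x y z := by
  have h1 : ∀ w : ℝ, max y (max c (max w z)) = max (max c (max z y)) w := fun w => by ac_rfl
  have h2 : ∀ w : ℝ, max x w = w + max (-(w - x)) 0 := by
    intro w
    rw [← max_sub_eq, sub_sub_cancel, max_comm]
  unfold M
  rw [h1, max_sub_eq, h2 (max c (max z y))]
  ring

lemma eq_zero_of_M {c x y z : ℝ} (h : M c x y z = 0) : x = 0 ∧ y = 0 ∧ z = 0 := by
  unfold M at h
  have h1 := le_max_left x (max c (max z y))
  have h2 := (le_max_right c (max z y)).trans (le_max_right x (max c (max z y)))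
  have h3 := (le_max_left z y).trans h2
  have h4 := (le_max_right z y).trans h2
  have a1 := le_max_left (-x) 0
  have a2 := le_max_right (-x) 0
  have b1 := le_max_left (-y) 0
  have b2 := le_max_right (-y) 0
  have c1 := le_max_left (-z) 0
  have c2 := le_max_right (-z) 0
  refine ⟨?_, ?_, ?_⟩ <;> apply le_antisymm <;> linarith

lemma M_continuous (c : ℝ) : Continuous fun p : ℝ × ℝ × ℝ => M c p.1 p.2.1 p.2.2 := by
  unfold M
  fun_prop

/-- solutions of `z_{n+3} = max {c, z_{n+2}, z_{n+1}} - z_n`, `c ≤ 0`, that tend to `0` vanish -/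
lemma eq_zero_of_tendsto {c : ℝ} (hc : c ≤ 0) {z : ℕ → ℝ}
    (hz : ∀ n, z (n + 3) = max c (max (z (n + 2)) (z (n + 1))) - z n)
    (h0 : Tendsto z atTop (𝓝 0)) (n : ℕ) : z n = 0 := by
  have hconst : ∀ n, M c (z n) (z (n + 1)) (z (n + 2)) = M c (z 0) (z 1) (z 2) := by
    intro n
    induction n with
    | zero => rfl
    | succ n ih =>
      rw [← ih, ← M_step c (z n), ← hz n]
  have h1 : Tendsto (fun n => z (n + 1)) atTop (𝓝 0) := h0.comp (tendsto_add_atTop_nat 1)
  have h2 : Tendsto (fun n => z (n + 2)) atTop (𝓝 0) := h0.comp (tendsto_add_atTop_nat 2)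
  have hM : Tendsto (fun n => M c (z n) (z (n + 1)) (z (n + 2))) atTop (𝓝 0) := by
    have := ((M_continuous c).tendsto (0, 0, 0)).comp (h0.prodMk_nhds (h1.prodMk_nhds h2))
    have e : M c 0 0 0 = 0 := by simp [M, hc]
    simpa [e, Function.comp_def] using this
  have hz0 : M c (z 0) (z 1) (z 2) = 0 :=
    tendsto_nhds_unique (tendsto_const_nhds.congr fun n => (hconst n).symm) hM
  exact (eq_zero_of_M ((hconst n).trans hz0)).1

/-! ### The case `A > 1` -/

lemma eq_limit_of_periodic {x : ℕ → ℝ} {L : ℝ} {N p : ℕ} (hp : 0 < p)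
    (hx : ∀ n, N ≤ n → x (n + p) = x n) (hL : Tendsto x atTop (𝓝 L)) :
    ∀ n, N ≤ n → x n = L := by
  intro n hn
  have h1 : ∀ m : ℕ, x (n + m * p) = x n := by
    intro m
    induction m with
    | zero => simp
    | succ m ih =>
      rw [← ih, show n + (m + 1) * p = n + m * p + p by ring]
      exact hx _ (by omega)
  have h2 : Tendsto (fun m : ℕ => x (n + m * p)) atTop (𝓝 L) := by
    apply hL.comp
    apply tendsto_atTop_mono _ tendsto_id
    intro m
    have : m * 1 ≤ m * p := Nat.mul_le_mul_left _ hp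
    simp only [id]
    omega
  exact tendsto_nhds_unique (tendsto_const_nhds.congr fun m => (h1 m).symm) h2

/-- **For every `A > 0`, no positive non-equilibrium solution of
`x_{n+1} = max {A, x_n, x_{n-1}} / x_{n-2}` has a limit.** -/
theorem result (A : ℝ) (hA : 0 < A) (x : ℕ → ℝ) (hx : IsPositiveSolution A x)
    (hne : ¬ ∃ c : ℝ, ∀ n, x n = c) : ¬ ∃ L : ℝ, Tendsto x atTop (𝓝 L) := by
  rintro ⟨L, hL⟩
  apply hne
  have h1 : Tendsto (fun n => x (n + 1)) atTop (𝓝 L) := hL.comp (tendsto_add_atTop_nat 1)
  have h2 : Tendsto (fun n => x (n + 2)) atTop (𝓝 L) := hL.comp (tendsto_add_atTop_nat 2)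
  have h3 : Tendsto (fun n => x (n + 3)) atTop (𝓝 L) := hL.comp (tendsto_add_atTop_nat 3)
  have hL0 : 0 ≤ L := ge_of_tendsto' hL fun n => (hx.1 n).le
  have hrec : ∀ n, x (n + 3) * x n = max A (max (x (n + 2)) (x (n + 1))) := by
    intro n
    rw [hx.2 n, div_mul_cancel₀ _ (hx.1 n).ne']
  have hLL : L * L = max A L := by
    have e1 : Tendsto (fun n => x (n + 3) * x n) atTop (𝓝 (L * L)) := h3.mul hL
    have e2 : Tendsto (fun n => x (n + 3) * x n) atTop (𝓝 (max A L)) := by
      have := (tendsto_const_nhds (x := A)).max (h2.max h1)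
      rw [max_self] at this
      exact this.congr fun n => (hrec n).symm
    exact tendsto_nhds_unique e1 e2
  have hLpos : 0 < L := by
    rcases hL0.eq_or_lt with h | h
    · rw [← h] at hLL
      have := le_max_left A 0
      linarith
    · exact h
  rcases le_or_gt A 1 with hA1 | hA1
  · -- the case `A ≤ 1`
    have hL1 : L = 1 := by
      rcases max_cases A L with h | h
      · rw [h.1] at hLL
        nlinarith
      · rw [h.1] at hLL
        exact mul_left_cancel₀ hLpos.ne' (by linarith)
    subst hL1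
    have hmax : ∀ a b : ℝ, 0 < a → 0 < b → Real.log (max a b) = max (Real.log a) (Real.log b) := by
      intro a b ha hb
      rcases le_total a b with h | h
      · rw [max_eq_right h, max_eq_right (Real.log_le_log ha h)]
      · rw [max_eq_left h, max_eq_left (Real.log_le_log hb h)]
    have hlog : ∀ n, Real.log (x (n + 3)) =
        max (Real.log A) (max (Real.log (x (n + 2))) (Real.log (x (n + 1)))) - Real.log (x n) := by
      intro n
      rw [hx.2 n, Real.log_div (lt_of_lt_of_le hA (le_max_left _ _)).ne' (hx.1 n).ne',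
        hmax _ _ hA (lt_max_of_lt_left (hx.1 _)), hmax _ _ (hx.1 _) (hx.1 _)]
    have hz0 : Tendsto (fun n => Real.log (x n)) atTop (𝓝 0) := by
      have := (Real.continuousAt_log one_ne_zero).tendsto.comp hL
      rwa [Real.log_one] at this
    refine ⟨1, fun n => ?_⟩
    have := eq_zero_of_tendsto (z := fun n => Real.log (x n))
      (Real.log_nonpos hA.le hA1) hlog hz0 n
    exact Real.eq_one_of_pos_of_log_eq_zero (hx.1 n) this
  · -- the case `A > 1`
    have hLA : L < A := by
      rcases max_cases A L with h | h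
      · rw [h.1] at hLL
        nlinarith
      · rw [h.1] at hLL
        exfalso
        have : L = 1 := mul_left_cancel₀ hLpos.ne' (by linarith)
        linarith
    obtain ⟨N, hN⟩ := eventually_atTop.1 (hL.eventually (gt_mem_nhds hLA))
    refine ⟨L, eq_of_eventually hx hLpos hLL.symm N
      (eq_limit_of_periodic (p := 6) (by norm_num) (fun n hn => ?_) hL)⟩
    have e1 := hrec n
    have e2 := hrec (n + 3)
    rw [max_eq_left (max_le (hN _ (by omega)).le (hN _ (by omega)).le)] at e1 e2
    simp only [add_assoc, Nat.reduceAdd] at e2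
    have := hx.1 (n + 3)
    apply mul_right_cancel₀ this.ne'
    linarith

end Pool.Agent.Results.MP_d408b2_an.NoLimit
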